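import Pool.Agent.H501Z.Sum.Defs

set_option autoImplicit false

namespace Pool.Agent.H501Z.Sum

open Set Filter

universe u

/-- from the property (star) one gets large index sets with infinitely many prescribed gaps -/
theorem gaps_of_star {X : Type u} [TopologicalSpace X] (hS : SumStar X) (W : ℕ → Set X)
    (hinj : Function.Injective W) (hL : IsLarge (range W)) (hnf : NoFiniteSubcover (range W))
    (a : ℕ → ℕ) (ha : StrictMono a) :
    ∃ A : Set ℕ, (∀ x, {n | n ∈ A ∧ x ∈ W n}.Infinite) ∧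
      {k | ∀ n ∈ A, ¬ (a k ≤ n ∧ n < a (k + 1))}.Infinite := by
  classical
  let π : Finset ℕ → Set X := fun F => ⋃ i ∈ F, W i
  obtain ⟨code, hcode⟩ := Set.countable_iff_exists_injOn.1 (countable_range π)
  let cov : Set X → ℕ → ℕ → Prop := fun V c b => ∀ x ∈ V, ∃ n, c ≤ n ∧ n < b ∧ x ∈ W n
  let lo : Set X → ℕ := fun V => Nat.findGreatest (fun c => ∃ b, cov V c b) (code V)
  have h1 : ∀ V : Set X, ∃ b, (∃ b, cov V (lo V) b) → cov V (lo V) b := by
    intro V
    by_cases h : ∃ b, cov V (lo V) b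
    · obtain ⟨b, hb⟩ := h
      exact ⟨b, fun _ => hb⟩
    · exact ⟨0, fun h' => absurd h' h⟩
  choose hi hhi using h1
  let Red : Set X → Set X → Prop := fun V V' => a (hi V + 1) ≤ lo V' ∨ a (hi V' + 1) ≤ lo V
  let χ : Sym2 (Set X) → Fin 2 := Sym2.lift ⟨fun V V' => if Red V V' then 0 else 1, by
    intro V V'
    have : Red V V' ↔ Red V' V := or_comm
    simp only [this]⟩
  obtain ⟨ℱ, hF, hdis, hlarge, hprop, c, hc⟩ := hS _ hL hnf 2 χ
  let V : ℕ → Set X := fun j => ⋃₀ ℱ j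
  have hsing : ∀ j, sumSet ℱ {j} = V j := by
    intro j
    simp [sumSet, V]
  have hbef : ∀ i j, i < j → Before {i} {j} := by
    intro i j hij
    exact ⟨Finset.singleton_nonempty _, Finset.singleton_nonempty _, by simpa using hij⟩
  have hVinj : Function.Injective V := by
    intro i j hij
    by_contra hne
    rcases lt_or_gt_of_ne hne with h | h
    · exact hprop _ _ (hbef i j h) (by rw [hsing, hsing, hij])
    · exact hprop _ _ (hbef j i h) (by rw [hsing, hsing, hij])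
  have hsfin : ∀ j, (W ⁻¹' ℱ j).Finite := fun j => (hF j).2.1.preimage hinj.injOn
  have hVmem : ∀ j x, x ∈ V j ↔ ∃ n, W n ∈ ℱ j ∧ x ∈ W n := by
    intro j x
    constructor
    · rintro ⟨U, hU, hx⟩
      obtain ⟨n, rfl⟩ := (hF j).1 hU
      exact ⟨n, hU, hx⟩
    · rintro ⟨n, hn, hx⟩
      exact ⟨W n, hn, hx⟩
  have hVπ : ∀ j, V j ∈ range π := by
    intro j
    refine ⟨(hsfin j).toFinset, ?_⟩
    ext x
    rw [hVmem]
    simp [π]
  have hcov : ∀ j c, (∀ n, W n ∈ ℱ j → c ≤ n) → ∃ b, cov (V j) c b := by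
    intro j c h
    obtain ⟨b, hb⟩ := (hsfin j).bddAbove
    refine ⟨b + 1, fun x hx => ?_⟩
    obtain ⟨n, hn, hx⟩ := (hVmem j x).1 hx
    exact ⟨n, h n hn, Nat.lt_succ_of_le (hb hn), hx⟩
  have hlohi : ∀ j, cov (V j) (lo (V j)) (hi (V j)) := by
    intro j
    apply hhi
    exact Nat.findGreatest_spec (P := fun c => ∃ b, cov (V j) c b) (Nat.zero_le _)
      (hcov j 0 fun _ _ => Nat.zero_le _)
  have hle : ∀ j, lo (V j) ≤ hi (V j) := by
    intro j
    obtain ⟨U, hU⟩ := (hF j).2.2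
    obtain ⟨x, hx⟩ := (hL.1 U ((hF j).1 hU)).2.1
    obtain ⟨n, h1, h2, _⟩ := hlohi j x ⟨U, hU, hx⟩
    omega
  have hlim : ∀ c, {j | lo (V j) < c}.Finite := by
    intro c
    have f1 : {j | code (V j) < c}.Finite := by
      refine Set.Finite.of_finite_image (f := fun j => code (V j))
        ((Set.finite_lt_nat c).subset ?_) ?_
      · rintro _ ⟨j, hj, rfl⟩
        exact hj
      · intro i _ j _ hij
        exact hVinj (hcode (hVπ i) (hVπ j) hij)
    have f2 : (⋃ n ∈ Finset.range c, {j | W n ∈ ℱ j}).Finite := by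
      refine Set.Finite.biUnion (Finset.finite_toSet _) fun n _ => Set.Subsingleton.finite ?_
      intro i hi j hj
      by_contra hne
      exact Set.disjoint_left.1 (hdis i j hne) hi hj
    refine (f1.union f2).subset fun j hj => ?_
    by_contra hcon
    simp only [mem_union, mem_setOf_eq, mem_iUnion, Finset.mem_range, not_or, not_lt,
      not_exists] at hcon
    have : c ≤ lo (V j) := Nat.le_findGreatest (P := fun c => ∃ b, cov (V j) c b) hcon.1
      (hcov j c fun n hn => by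
        by_contra hlt
        exact hcon.2 n (by omega) hn)
    exact absurd hj (not_lt.2 this)
  have hχ : ∀ i j, i < j → χ s(V i, V j) = c := by
    intro i j hij
    rw [← hsing, ← hsing]
    exact hc _ _ (hbef i j hij)
  have hc0 : c = 0 := by
    obtain ⟨j, hj, hj0⟩ := (hlim (a (hi (V 0) + 1))).infinite_compl.exists_gt 0
    rw [← hχ 0 j hj0]
    have : Red (V 0) (V j) := Or.inl (not_lt.1 hj)
    simp [χ, this]
  have hRed : ∀ i j, i ≠ j → Red (V i) (V j) := by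
    have key : ∀ i j, i < j → Red (V i) (V j) := by
      intro i j hij
      by_contra hcon
      have := hχ i j hij
      rw [hc0] at this
      simp [χ, hcon] at this
    intro i j hne
    rcases lt_or_gt_of_ne hne with h | h
    · exact key i j h
    · exact (key j i h).symm
  refine ⟨{n | ∃ j, lo (V j) ≤ n ∧ n < hi (V j)}, fun x => ?_, ?_⟩
  · have hj : {j | x ∈ V j}.Infinite := by
      intro hfin
      apply hlarge.2 x
      refine (hfin.biUnion (t := fun j => ℱ j) fun j _ => (hF j).2.1).subset ?_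
      rintro U ⟨hU, hx⟩
      obtain ⟨j, hj⟩ := mem_iUnion.1 hU
      exact mem_iUnion₂.2 ⟨j, ⟨U, hj, hx⟩, hj⟩
    rw [Set.infinite_iff_exists_gt]
    intro N
    obtain ⟨j, hj1, hj2⟩ := (hj.diff (hlim (N + 1))).nonempty
    obtain ⟨n, h1, h2, h3⟩ := hlohi j x hj1
    simp only [mem_setOf_eq, not_lt] at hj2
    exact ⟨n, ⟨⟨j, h1, h2⟩, h3⟩, by omega⟩
  · rw [Set.infinite_iff_exists_gt]
    intro N
    obtain ⟨i, hi'⟩ := (hlim (N + 1)).infinite_compl.nonempty
    simp only [mem_compl_iff, mem_setOf_eq, not_lt] at hi'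
    have h0 := hle i
    refine ⟨hi (V i), ?_, by omega⟩
    rintro n ⟨j, h1, h2⟩ ⟨h3, h4⟩
    have h5 : hi (V i) ≤ a (hi (V i)) := ha.id_le _
    by_cases hij : i = j
    · subst hij
      omega
    · rcases hRed i j hij with h | h
      · omega
      · have h6 : hi (V j) + 1 ≤ a (hi (V j) + 1) := ha.id_le _
        omega

theorem lindelof_of_star {X : Type u} [TopologicalSpace X] (hS : SumStar X) : LindelofSpace X := by
  classical
  refine ⟨isLindelof_of_countable_subcover ?_⟩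
  intro ι U hU hcov
  by_cases hfin : ∃ s : Finset ι, (⋃ i ∈ s, U i) = Set.univ
  · obtain ⟨s, hs⟩ := hfin
    exact ⟨s, s.countable_toSet, by simp only [Finset.mem_coe]; rw [hs]⟩
  push Not at hfin
  let 𝒰 : Set (Set X) := {V | V.Nonempty ∧ ∃ s : Finset ι, V = ⋃ i ∈ s, U i}
  have hun : ∀ ℱ : Set (Set X), ℱ ⊆ 𝒰 → ℱ.Finite → ∃ s : Finset ι, ⋃₀ ℱ ⊆ ⋃ i ∈ s, U i := by
    intro ℱ hsub hf
    induction ℱ, hf using Set.Finite.induction_on with
    | empty => exact ⟨∅, by simp⟩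
    | @insert V ℱ _ _ ih =>
      obtain ⟨s, hs⟩ := ih ((subset_insert _ _).trans hsub)
      obtain ⟨_, t, ht⟩ := hsub (mem_insert V ℱ)
      refine ⟨t ∪ s, ?_⟩
      rw [sUnion_insert, Finset.set_biUnion_union, ht]
      exact union_subset_union_right _ hs
  have hnf : NoFiniteSubcover 𝒰 := by
    intro ℱ hsub hf h
    obtain ⟨s, hs⟩ := hun ℱ hsub hf
    rw [h] at hs
    exact hfin s (univ_subset_iff.1 hs)
  have hL : IsLarge 𝒰 := by
    refine ⟨?_, fun x hx => ?_⟩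
    · rintro V ⟨hne, s, rfl⟩
      exact ⟨isOpen_biUnion fun i _ => hU i, hne, hfin s⟩
    · have h1 := hnf _ (fun V hV => hV.1) hx
      obtain ⟨y, hy⟩ := (ne_univ_iff_exists_notMem _).1 h1
      obtain ⟨i, hi⟩ := mem_iUnion.1 (hcov (mem_univ x))
      obtain ⟨j, hj⟩ := mem_iUnion.1 (hcov (mem_univ y))
      have hxm : x ∈ ⋃ l ∈ ({i, j} : Finset ι), U l := mem_iUnion₂.2 ⟨i, by simp, hi⟩
      exact hy ⟨⋃ l ∈ ({i, j} : Finset ι), U l, ⟨⟨⟨x, hxm⟩, _, rfl⟩, hxm⟩,
        mem_iUnion₂.2 ⟨j, by simp, hj⟩⟩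
  obtain ⟨ℱ, hF, _, hlarge, _⟩ := hS 𝒰 hL hnf 1 (fun _ => 0)
  choose s hs using fun n => hun (ℱ n) (hF n).1 (hF n).2.1
  refine ⟨⋃ n, (s n : Set ι), countable_iUnion fun n => (s n).countable_toSet, fun x _ => ?_⟩
  obtain ⟨V, hV, hx⟩ := (hlarge.2 x).nonempty
  obtain ⟨n, hn⟩ := mem_iUnion.1 hV
  obtain ⟨i, hi, hxi⟩ := mem_iUnion₂.1 (hs n ⟨V, hn, hx⟩)
  exact mem_iUnion₂.2 ⟨i, mem_iUnion.2 ⟨n, hi⟩, hxi⟩

theorem grid {X : Type u} [TopologicalSpace X] [LindelofSpace X] (hY : ¬ IsMenger X) :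
    ∃ F : ℕ → ℕ → Set X, (∀ a m, IsOpen (F a m)) ∧ (∀ a, Monotone (F a)) ∧
      (∀ a y, ∃ m, y ∈ F a m) ∧ ∀ g : ℕ → ℕ, ∃ y, ∀ a, y ∉ F a (g a) := by
  classical
  unfold IsMenger at hY
  push Not at hY
  obtain ⟨𝒰, h𝒰, hno⟩ := hY
  have h1 : ∀ n, ∃ T : Set (Set X), T.Countable ∧ T ⊆ 𝒰 n ∧ ⋃₀ T = Set.univ := by
    intro n
    obtain ⟨r, hr, hcov⟩ := isLindelof_univ.elim_countable_subcover
      (fun V : 𝒰 n => (V : Set X)) (fun V => (h𝒰 n).1 V V.2) (by
        rw [← (h𝒰 n).2, sUnion_eq_iUnion])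
    refine ⟨Subtype.val '' r, hr.image _, ?_, ?_⟩
    · rintro _ ⟨V, _, rfl⟩
      exact V.2
    · rw [sUnion_image]
      exact univ_subset_iff.1 hcov
  choose T hTc hTs hTu using h1
  have h2 : ∀ n, ∃ f : Set X → ℕ, InjOn f (T n) := fun n =>
    Set.countable_iff_exists_injOn.1 (hTc n)
  choose f hf using h2
  have hfin : ∀ n m, {U ∈ T n | f n U ≤ m}.Finite := by
    intro n m
    refine Set.Finite.of_finite_image (f := f n) ((Set.finite_Iic m).subset ?_)
      ((hf n).mono (fun U hU => hU.1))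
    rintro _ ⟨U, hU, rfl⟩
    exact hU.2
  refine ⟨fun n m => ⋃₀ {U ∈ T n | f n U ≤ m}, ?_, ?_, ?_, ?_⟩
  · intro a m
    exact isOpen_sUnion (fun U hU => (h𝒰 a).1 U (hTs a hU.1))
  · intro a m m' hmm'
    exact sUnion_subset_sUnion (fun U hU => ⟨hU.1, hU.2.trans hmm'⟩)
  · intro a y
    have hy : y ∈ ⋃₀ T a := by rw [hTu a]; exact mem_univ y
    obtain ⟨U, hU, hyU⟩ := hy
    exact ⟨f a U, U, ⟨hU, le_rfl⟩, hyU⟩
  · intro g
    have := hno (fun n => {U ∈ T n | f n U ≤ g n})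
      (fun n => ⟨fun U hU => hTs n hU.1, hfin n (g n)⟩)
    rw [Set.ne_univ_iff_exists_notMem] at this
    obtain ⟨y, hy⟩ := this
    refine ⟨y, fun a ha => hy (mem_iUnion.2 ⟨a, ha⟩)⟩

theorem shrink {X : Type u} [TopologicalSpace X] [RegularSpace X] [LindelofSpace X]
    (F : ℕ → Set X) (hFo : ∀ m, IsOpen (F m)) (hFm : Monotone F) (hFc : ∀ y, ∃ m, y ∈ F m) :
    ∃ D : ℕ → Set X, (∀ j, IsOpen (D j)) ∧ (∀ j, D j ⊆ F j) ∧ (∀ y, ∃ j, y ∈ D j) ∧
      ∀ y j j', y ∈ D j → y ∈ D j' → j' ≤ j + 1 := by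
  classical
  rcases isEmpty_or_nonempty X with hX | hX
  · exact ⟨fun _ => ∅, fun _ => isOpen_empty, fun _ => empty_subset _, fun y => (hX.false y).elim,
      fun y => (hX.false y).elim⟩
  have : NormalSpace X := NormalSpace.of_regularSpace_lindelofSpace
  choose m hm using hFc
  have h1 : ∀ y, ∃ t ∈ nhds y, IsClosed t ∧ t ⊆ F (m y) := fun y =>
    exists_mem_nhds_isClosed_subset ((hFo _).mem_nhds (hm y))
  choose t ht1 ht2 ht3 using h1
  obtain ⟨r, hr, hcov⟩ := isLindelof_univ.elim_countable_subcover (fun y => interior (t y))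
    (fun y => isOpen_interior) (fun y _ => mem_iUnion.2 ⟨y, mem_interior_iff_mem_nhds.2 (ht1 y)⟩)
  have hrne : r.Nonempty := by
    obtain ⟨y⟩ := hX
    obtain ⟨z, hz, _⟩ := mem_iUnion₂.1 (hcov (mem_univ y))
    exact ⟨z, hz⟩
  obtain ⟨e, he⟩ := hr.exists_eq_range hrne
  let C : ℕ → Set X := fun j => ⋃ i ∈ (Finset.range (j + 1)).filter (fun i => m (e i) ≤ j), t (e i)
  have hCc : ∀ j, IsClosed (C j) := fun j => isClosed_biUnion_finset fun i _ => ht2 _
  have hCF : ∀ j, C j ⊆ F j := by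
    intro j y hy
    obtain ⟨i, hi, hyi⟩ := mem_iUnion₂.1 hy
    exact hFm (Finset.mem_filter.1 hi).2 (ht3 _ hyi)
  have h2 : ∀ j (s : Set X), ∃ v, IsOpen v ∧ (closure s ⊆ F j → C j ∪ closure s ⊆ v ∧
      closure v ⊆ F j) := by
    intro j s
    by_cases h : closure s ⊆ F j
    · obtain ⟨v, hv1, hv2, hv3⟩ := normal_exists_closure_subset
        ((hCc j).union isClosed_closure) (hFo j) (union_subset (hCF j) h)
      exact ⟨v, hv1, fun _ => ⟨hv2, hv3⟩⟩
    · exact ⟨∅, isOpen_empty, fun h' => absurd h' h⟩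
  choose nx hnx1 hnx2 using h2
  let O : ℕ → Set X := fun j => Nat.rec (nx 0 ∅) (fun j s => nx (j + 1) s) j
  have hO : ∀ j, O (j + 1) = nx (j + 1) (O j) := fun j => rfl
  have hOo : ∀ j, IsOpen (O j) := by
    intro j
    cases j with
    | zero => exact hnx1 _ _
    | succ j => exact hnx1 _ _
  have hOF : ∀ j, closure (O j) ⊆ F j := by
    intro j
    induction j with
    | zero => exact (hnx2 0 ∅ (by simp)).2
    | succ j ih => exact (hnx2 (j + 1) (O j) (ih.trans (hFm (Nat.le_succ j)))).2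
  have hOs : ∀ j, C (j + 1) ∪ closure (O j) ⊆ O (j + 1) := fun j =>
    (hnx2 (j + 1) (O j) ((hOF j).trans (hFm (Nat.le_succ j)))).1
  have hOc : ∀ y, ∃ j, y ∈ O j := by
    intro y
    obtain ⟨z, hz, hy⟩ := mem_iUnion₂.1 (hcov (mem_univ y))
    rw [he] at hz
    obtain ⟨i, rfl⟩ := hz
    refine ⟨i + m (e i) + 1, hOs _ (Or.inl (mem_iUnion₂.2 ⟨i, ?_, interior_subset hy⟩))⟩
    exact Finset.mem_filter.2 ⟨Finset.mem_range.2 (by omega), by omega⟩
  refine ⟨fun j => O j \ ⋃ i ∈ Finset.range (j - 1), closure (O i), fun j => ?_, fun j => ?_,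
    fun y => ?_, ?_⟩
  · exact (hOo j).sdiff (isClosed_biUnion_finset fun i _ => isClosed_closure)
  · exact fun y hy => hOF j (subset_closure hy.1)
  · obtain ⟨j, hj1, hj2⟩ : ∃ j, y ∈ O j ∧ ∀ i < j, y ∉ O i :=
      ⟨(wellFounded_lt (α := ℕ)).min {j | y ∈ O j} (hOc y),
        (wellFounded_lt (α := ℕ)).min_mem {j | y ∈ O j} (hOc y),
        fun i hi h => (wellFounded_lt (α := ℕ)).not_lt_min {j | y ∈ O j} h hi⟩
    refine ⟨j, hj1, fun h => ?_⟩
    obtain ⟨i, hi, hyi⟩ := mem_iUnion₂.1 h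
    have hi' := Finset.mem_range.1 hi
    exact hj2 (i + 1) (by omega) (hOs i (Or.inr hyi))
  · intro y j j' hj hj'
    by_contra hcon
    exact hj'.2 (mem_iUnion₂.2 ⟨j, Finset.mem_range.2 (by omega), subset_closure hj.1⟩)

/-- a non-Menger space has a large cover with very sparse points -/
theorem sparse_cover {X : Type u} [TopologicalSpace X] [RegularSpace X] [T1Space X] [Infinite X]
    [LindelofSpace X] (hM : ¬ IsMenger X) :
    ∃ W : ℕ → Set X, Function.Injective W ∧ IsLarge (range W) ∧ NoFiniteSubcover (range W) ∧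
      ∀ h : ℕ → ℕ, ∃ x, ∀ m, ∀ s : Finset ℕ, (∀ n ∈ s, n < h m ∧ x ∈ W n) → s.card ≤ 2 * m := by
  classical
  obtain ⟨F, hFo, hFm, hFc, hFn⟩ := grid hM
  choose D hDo hDF hDc hD2 using fun a => shrink (F a) (hFo a) (hFm a) (hFc a)
  let p : ℕ → X := Infinite.natEmbedding X
  have hp : Function.Injective p := (Infinite.natEmbedding X).injective
  choose μ hμ using fun i => hFc i (p i)
  let W : ℕ → Set X := fun k =>
    (D (Nat.unpair k).1 (Nat.unpair k).2 ∪ ⋃ i ∈ Finset.range (k + 1), F i (μ i)) \ {p (k + 1)}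
  have hpW : ∀ i k, i ≤ k → p i ∈ W k := by
    intro i k hik
    refine ⟨Or.inr (mem_iUnion₂.2 ⟨i, Finset.mem_range.2 (by omega), hμ i⟩), fun h => ?_⟩
    have := hp (mem_singleton_iff.1 h)
    omega
  have hpW' : ∀ k, p (k + 1) ∉ W k := fun k h => h.2 rfl
  have hinj : Function.Injective W := by
    intro k l hkl
    by_contra hne
    rcases lt_or_gt_of_ne hne with h | h
    · exact hpW' k (hkl ▸ hpW (k + 1) l h)
    · exact hpW' l (hkl ▸ hpW (l + 1) k h)
  have hsp : ∀ h : ℕ → ℕ, ∃ x, ∀ m, ∀ s : Finset ℕ, (∀ n ∈ s, n < h m ∧ x ∈ W n) →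
      s.card ≤ 2 * m := by
    intro h
    obtain ⟨x, hx⟩ := hFn (fun a => max (μ a) ((Finset.range (a + 1)).sup h))
    refine ⟨x, fun m s hs => ?_⟩
    have hxD : ∀ n, x ∈ W n → x ∈ D (Nat.unpair n).1 (Nat.unpair n).2 := by
      intro n hn
      rcases hn.1 with h1 | h1
      · exact h1
      · obtain ⟨i, _, hi⟩ := mem_iUnion₂.1 h1
        exact absurd (hFm i (le_max_left _ _) hi) (hx i)
    have : 2 * m = ((Finset.range m) ×ˢ (Finset.range 2)).card := by
      simp [mul_comm]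
    rw [this]
    refine Finset.card_le_card_of_injOn (fun n => ((Nat.unpair n).1, (Nat.unpair n).2 % 2)) ?_ ?_
    · intro n hn
      obtain ⟨hn1', hn2⟩ := hs n (Finset.mem_coe.1 hn)
      refine Finset.mem_coe.2 (Finset.mem_product.2 ⟨Finset.mem_range.2 ?_,
        Finset.mem_range.2 (Nat.mod_lt _ (by norm_num))⟩)
      by_contra hcon
      apply hx (Nat.unpair n).1
      refine hFm _ ?_ (hDF _ _ (hxD n hn2))
      have h1 := Nat.unpair_right_le n
      have h2 : h m ≤ (Finset.range ((Nat.unpair n).1 + 1)).sup h :=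
        Finset.le_sup (f := h) (Finset.mem_range.2 (by simp only at hcon; omega))
      exact le_trans (by omega) (le_max_right _ _)
    · intro n hn n' hn' hnn
      have h1 := hxD n (hs n (Finset.mem_coe.1 hn)).2
      have h2 := hxD n' (hs n' (Finset.mem_coe.1 hn')).2
      obtain ⟨e1, e2⟩ := Prod.mk.inj hnn
      rw [← e1] at h2
      have h3 := hD2 _ x _ _ h1 h2
      have h4 := hD2 _ x _ _ h2 h1
      have h5 : (Nat.unpair n).2 = (Nat.unpair n').2 := by omega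
      rw [← Nat.pair_unpair n, ← Nat.pair_unpair n', e1, h5]
  refine ⟨W, hinj, ⟨?_, fun x => ?_⟩, ?_, hsp⟩
  · rintro _ ⟨k, rfl⟩
    refine ⟨((hDo _ _).union (isOpen_biUnion fun i _ => hFo _ _)).sdiff isClosed_singleton,
      ⟨p 0, hpW 0 k (Nat.zero_le _)⟩, fun h => hpW' k (h ▸ mem_univ _)⟩
  · have h1 : {n | x ∈ W n}.Infinite := by
      have hsub : {k | x = p (k + 1)}.Finite := by
        refine Set.Subsingleton.finite fun k hk l hl => ?_
        have := hp (hk.symm.trans hl)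
        omega
      choose j hj using fun a => hDc a x
      have h2 : (range fun a => Nat.pair a (j a)).Infinite :=
        Set.infinite_range_of_injective fun a b hab => (Nat.pair_eq_pair.1 hab).1
      refine (h2.diff hsub).mono ?_
      rintro _ ⟨⟨a, rfl⟩, ha⟩
      exact ⟨Or.inl (by simpa using hj a), ha⟩
    refine (h1.image hinj.injOn).mono ?_
    rintro _ ⟨n, hn, rfl⟩
    exact ⟨⟨n, rfl⟩, hn⟩
  · intro ℱ hsub hf hU
    obtain ⟨N, hN⟩ := (hf.preimage hinj.injOn).bddAbove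
    obtain ⟨x, hx⟩ := hsp (fun _ => N + 1)
    have h0 := hx 0
    have : x ∈ ⋃₀ ℱ := hU ▸ mem_univ x
    obtain ⟨U, hU1, hU2⟩ := this
    obtain ⟨n, rfl⟩ := hsub hU1
    have h2 := h0 {n} (by
      intro l hl
      rw [Finset.mem_singleton.1 hl]
      exact ⟨Nat.lt_succ_of_le (hN hU1), hU2⟩)
    simp at h2

end Pool.Agent.H501Z.Sum
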