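import Mathlib

/-!
Large covers, monochromatic sumgraphs, the Menger property, and the cardinals d, u, g.
-/

set_option autoImplicit false

namespace Pool.Agent.H501Z.Sum

open Set

universe u

/-- A large open cover: a family of nonempty proper open sets such that every point lies in
infinitely many members. -/
def IsLarge {X : Type u} [TopologicalSpace X] (𝒰 : Set (Set X)) : Prop :=
  (∀ U ∈ 𝒰, IsOpen U ∧ U.Nonempty ∧ U ≠ Set.univ) ∧ ∀ x : X, {U | U ∈ 𝒰 ∧ x ∈ U}.Infinite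

/-- No finite subfamily covers the space. -/
def NoFiniteSubcover {X : Type u} (𝒰 : Set (Set X)) : Prop :=
  ∀ ℱ : Set (Set X), ℱ ⊆ 𝒰 → ℱ.Finite → ⋃₀ ℱ ≠ Set.univ

/-- The union of the sets `⋃₀ ℱ i` over the indices `i` in `H`. -/
def sumSet {X : Type u} (ℱ : ℕ → Set (Set X)) (H : Finset ℕ) : Set X := ⋃ i ∈ H, ⋃₀ ℱ i

/-- Both finite sets are nonempty and the first lies below the second. -/
def Before (H₁ H₂ : Finset ℕ) : Prop :=
  H₁.Nonempty ∧ H₂.Nonempty ∧ ∀ i ∈ H₁, ∀ j ∈ H₂, i < j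

/-- The property (star): for every large open cover without finite subcover and every finite
coloring of pairs there are pairwise disjoint finite nonempty subfamilies whose union is large,
whose sequence of unions is proper, and whose sumgraph is monochromatic. -/
def SumStar (X : Type u) [TopologicalSpace X] : Prop :=
  ∀ 𝒰 : Set (Set X), IsLarge 𝒰 → NoFiniteSubcover 𝒰 →
    ∀ (k : ℕ) (χ : Sym2 (Set X) → Fin k), ∃ ℱ : ℕ → Set (Set X),
      (∀ n, ℱ n ⊆ 𝒰 ∧ (ℱ n).Finite ∧ (ℱ n).Nonempty) ∧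
      (∀ n m, n ≠ m → Disjoint (ℱ n) (ℱ m)) ∧
      IsLarge (⋃ n, ℱ n) ∧
      (∀ H₁ H₂, Before H₁ H₂ → sumSet ℱ H₁ ≠ sumSet ℱ H₂) ∧
      ∃ c : Fin k, ∀ H₁ H₂, Before H₁ H₂ → χ s(sumSet ℱ H₁, sumSet ℱ H₂) = c

/-- The Menger property. -/
def IsMenger (X : Type u) [TopologicalSpace X] : Prop :=
  ∀ 𝒰 : ℕ → Set (Set X), (∀ n, (∀ U ∈ 𝒰 n, IsOpen U) ∧ ⋃₀ 𝒰 n = Set.univ) →
    ∃ ℱ : ℕ → Set (Set X), (∀ n, ℱ n ⊆ 𝒰 n ∧ (ℱ n).Finite) ∧ ⋃ n, ⋃₀ ℱ n = Set.univ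

/-- The dominating number. -/
noncomputable def dNum : Cardinal.{0} :=
  sInf {κ | ∃ D : Set (ℕ → ℕ),
    (∀ g : ℕ → ℕ, ∃ f ∈ D, ∀ᶠ n in Filter.atTop, g n ≤ f n) ∧ Cardinal.mk D = κ}

/-- The ultrafilter number: the least size of a base of a nonprincipal ultrafilter on `ℕ`. -/
noncomputable def uNum : Cardinal.{0} :=
  sInf {κ | ∃ B : Set (Set ℕ),
    (∃ p : Ultrafilter ℕ, (∀ A ∈ p, A.Infinite) ∧ ∀ A : Set ℕ, A ∈ p ↔ ∃ b ∈ B, b ⊆ A) ∧
      Cardinal.mk B = κ}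

/-- A groupwise dense family: infinite sets, closed under infinite almost subsets, containing
the union of infinitely many intervals of every interval partition. -/
def GroupwiseDense (G : Set (Set ℕ)) : Prop :=
  (∀ A ∈ G, A.Infinite) ∧ (∀ A ∈ G, ∀ B : Set ℕ, B.Infinite → (B \ A).Finite → B ∈ G) ∧
    ∀ a : ℕ → ℕ, a 0 = 0 → StrictMono a →
      ∃ C : Set ℕ, C.Infinite ∧ (⋃ i ∈ C, Set.Ico (a i) (a (i + 1))) ∈ G

/-- The groupwise density number: the least number of groupwise dense families with empty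
intersection. -/
noncomputable def gNum : Cardinal.{0} :=
  sInf {κ | ∃ 𝒢 : Set (Set (Set ℕ)), (∀ G ∈ 𝒢, GroupwiseDense G) ∧ ⋂₀ 𝒢 = ∅ ∧
    Cardinal.mk 𝒢 = κ}

end Pool.Agent.H501Z.Sum
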