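import Pool.Agent.H501Z.Sum.Defs

set_option autoImplicit false

namespace Pool.Agent.H501Z.Sum

open Set Filter

universe u

/-- finite sets under union -/
def FS : Type := Finset ℕ

instance : Semigroup FS where
  mul := fun a b => @Union.union (Finset ℕ) _ a b
  mul_assoc := fun a b c => Finset.union_assoc (α := ℕ) a b c

attribute [local instance] Ultrafilter.mul Ultrafilter.semigroup

/-- big families of finite sets -/
def Big (A : Set (Finset ℕ)) : Prop :=
  ∀ n, ∃ a, ∀ b, ∃ F ∈ A, (∀ x ∈ F, n ≤ x) ∧ Finset.Ico a b ⊆ F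

theorem low_mem {p : Ultrafilter (Finset ℕ)} (hp : ∀ A ∈ p, Big A) (n : ℕ) :
    {F : Finset ℕ | ∀ x ∈ F, n ≤ x} ∈ p := by
  by_contra h
  have h2 := Ultrafilter.compl_mem_iff_notMem.2 h
  obtain ⟨a, ha⟩ := hp _ h2 n
  obtain ⟨F, hF, h1, _⟩ := ha 0
  exact hF h1

theorem exists_idem : ∃ p : Ultrafilter (Finset ℕ), (∀ A ∈ p, Big A) ∧
    ∀ A ∈ p, {F | {G | F ∪ G ∈ A} ∈ p} ∈ p := by
  let K : Set (Ultrafilter FS) := {p | ∀ A : Set FS, A ∈ p → Big A}
  have hKc : IsClosed K := by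
    have : K = ⋂ A : Set FS, ⋂ (_ : ¬ Big A), {p : Ultrafilter FS | Aᶜ ∈ p} := by
      ext p
      simp only [K, mem_setOf_eq, mem_iInter, Ultrafilter.compl_mem_iff_notMem]
      exact forall_congr' fun A => ⟨fun h hA hp => hA (h hp), fun h hp => by
        by_contra hA; exact h hA hp⟩
    rw [this]
    exact isClosed_iInter fun A => isClosed_iInter fun _ => ultrafilter_isClosed_basic _
  have hKne : K.Nonempty := by
    let u : Ultrafilter ℕ := hyperfilter ℕ
    have hu : ∀ S ∈ u, ∀ n, ∃ a ∈ S, n ≤ a := by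
      intro S hS n
      by_contra hcon
      push Not at hcon
      have : S.Finite := (Set.finite_lt_nat n).subset fun a ha => hcon a ha
      exact Filter.notMem_hyperfilter_of_finite this hS
    refine ⟨u.bind (fun a => u.map (fun b => (Finset.Ico a b : Finset ℕ))), ?_⟩
    intro A hA n
    have h1 : {a | {b | Finset.Ico a b ∈ A} ∈ u} ∈ u := hA
    obtain ⟨a, ha, hna⟩ := hu _ h1 n
    refine ⟨a, fun b => ?_⟩
    obtain ⟨b', hb', hbb⟩ := hu _ ha b
    refine ⟨Finset.Ico a b', hb', fun x hx => hna.trans (Finset.mem_Ico.1 hx).1, ?_⟩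
    exact Finset.Ico_subset_Ico_right hbb
  have hKm : ∀ p ∈ K, ∀ q ∈ K, p * q ∈ K := by
    intro p hp q hq A hA n
    have h1 : {F : Finset ℕ | {G : Finset ℕ | F ∪ G ∈ A} ∈ q} ∈ p := hA
    have h2 := low_mem (p := p) hp n
    obtain ⟨F, hF1, hF2⟩ := Ultrafilter.nonempty_of_mem (inter_mem h1 h2)
    obtain ⟨a, ha⟩ := hq _ hF1 n
    refine ⟨a, fun b => ?_⟩
    obtain ⟨G, hG1, hG2, hG3⟩ := ha b
    refine ⟨F ∪ G, hG1, fun x hx => ?_, hG3.trans Finset.subset_union_right⟩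
    rcases Finset.mem_union.1 hx with h | h
    · exact hF2 x h
    · exact hG2 x h
  obtain ⟨p, hp, hpp⟩ := exists_idempotent_in_compact_subsemigroup
    (M := Ultrafilter FS) Ultrafilter.continuous_mul_left K hKne hKc.isCompact hKm
  refine ⟨p, hp, fun A hA => ?_⟩
  have : A ∈ p * p := by rw [hpp]; exact hA
  exact this

theorem exists_color {α : Type} {k : ℕ} (p : Ultrafilter α) (c : α → Fin k) :
    ∃ i, {a | c a = i} ∈ p := by
  obtain ⟨i, hi⟩ := Ultrafilter.eq_pure_of_finite (p.map c)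
  refine ⟨i, ?_⟩
  have : ({i} : Set (Fin k)) ∈ p.map c := by rw [hi]; exact rfl
  exact this

/-- bound of a position -/
def bd : List (Finset ℕ) → ℕ
  | [] => 0
  | F :: l => max (bd l) (F.sup id + 1)

/-- constraint set of a position -/
def cons (A0 : Set (Finset ℕ)) (B : Finset ℕ → Set (Finset ℕ)) : List (Finset ℕ) → Set (Finset ℕ)
  | [] => A0
  | F :: l => cons A0 B l ∩ ({G | F ∪ G ∈ cons A0 B l} ∩
      ({G | ∀ E ∈ (Finset.range (bd (F :: l))).powerset, G ∈ B E} ∩ {G | ∀ x ∈ G, bd (F :: l) ≤ x}))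

/-- The combinatorial core: a Milliken-Taylor sequence which swallows everything outside a
prescribed infinite set of intervals. -/
theorem core {p : Ultrafilter (Finset ℕ)} (hp : ∀ A ∈ p, Big A)
    (hid : ∀ A ∈ p, {F | {G | F ∪ G ∈ A} ∈ p} ∈ p) (A0 : Set (Finset ℕ)) (hA0 : A0 ∈ p)
    (B : Finset ℕ → Set (Finset ℕ)) (hB : ∀ E, B E ∈ p) :
    ∃ a : ℕ → ℕ, StrictMono a ∧ ∀ K : Set ℕ, K.Infinite → ∃ F : ℕ → Finset ℕ,
      (∀ i j, i < j → ∀ x ∈ F i, ∀ y ∈ F j, x < y) ∧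
      (∀ H : Finset ℕ, H.Nonempty → H.biUnion F ∈ A0) ∧
      (∀ H₁ H₂, Before H₁ H₂ → H₂.biUnion F ∈ B (H₁.biUnion F)) ∧
      ∃ N, ∀ k, N ≤ k → k ∉ K → ∀ n, a k ≤ n → n < a (k + 1) → ∃ j, n ∈ F j := by
  classical
  let C := cons A0 B
  let st : List (Finset ℕ) → Set (Finset ℕ) := fun l => {F | F ∈ C l ∧ {G | F ∪ G ∈ C l} ∈ p}
  have hst : ∀ l, C l ∈ p → st l ∈ p := fun l hl => inter_mem hl (hid _ hl)
  have hnext : ∀ l F, C l ∈ p → F ∈ st l → C (F :: l) ∈ p := by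
    intro l F hl hF
    refine inter_mem hl (inter_mem hF.2 (inter_mem ?_ (low_mem hp _)))
    have : {G | ∀ E ∈ (Finset.range (bd (F :: l))).powerset, G ∈ B E} =
        ⋂ E ∈ (Finset.range (bd (F :: l))).powerset, B E := by
      ext G; simp
    rw [this]
    exact (Filter.biInter_finset_mem _).2 fun E _ => hB E
  have h1 : ∀ l, ∃ a, ∀ b, ∃ F, C l ∈ p → F ∈ st l ∧ Finset.Ico a b ⊆ F := by
    intro l
    by_cases hl : C l ∈ p
    · obtain ⟨a, ha⟩ := hp _ (hst l hl) 0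
      refine ⟨a, fun b => ?_⟩
      obtain ⟨F, hF, _, h3⟩ := ha b
      exact ⟨F, fun _ => ⟨hF, h3⟩⟩
    · exact ⟨0, fun _ => ⟨∅, fun h => absurd h hl⟩⟩
  choose α resp hresp using h1
  let nx : ℕ × Finset (List (Finset ℕ)) → ℕ × Finset (List (Finset ℕ)) := fun q =>
    (max (q.1 + 1) ((q.2 ∪ q.2.image (fun l => resp l q.1 :: l)).sup α),
      q.2 ∪ q.2.image (fun l => resp l q.1 :: l))
  let sq : ℕ → ℕ × Finset (List (Finset ℕ)) := fun k => Nat.rec (α [], {[]}) (fun _ q => nx q) k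
  have hsq : ∀ k, sq (k + 1) = nx (sq k) := fun k => rfl
  let a : ℕ → ℕ := fun k => (sq k).1
  let S : ℕ → Finset (List (Finset ℕ)) := fun k => (sq k).2
  have ha : StrictMono a := strictMono_nat_of_lt_succ fun k => by
    show (sq k).1 < (sq (k + 1)).1
    rw [hsq]
    exact lt_of_lt_of_le (Nat.lt_succ_self _) (le_max_left _ _)
  have hS : Monotone S := monotone_nat_of_le_succ fun k => by
    show (sq k).2 ⊆ (sq (k + 1)).2
    rw [hsq]
    exact Finset.subset_union_left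
  have hSn : ∀ k l, l ∈ S k → resp l (a k) :: l ∈ S (k + 1) := by
    intro k l hl
    show _ ∈ (sq (k + 1)).2
    rw [hsq]
    exact Finset.mem_union_right _ (Finset.mem_image.2 ⟨l, hl, rfl⟩)
  have hSα : ∀ k l, l ∈ S (k + 1) → α l ≤ a (k + 1) := by
    intro k l hl
    show _ ≤ (sq (k + 1)).1
    have hl' : l ∈ (nx (sq k)).2 := hl
    rw [hsq]
    exact le_trans (Finset.le_sup (f := α) hl') (le_max_right _ _)
  refine ⟨a, ha, fun K hK => ?_⟩
  let κ : ℕ → ℕ := Nat.nth (· ∈ K)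
  have hκ : StrictMono κ := Nat.nth_strictMono hK
  let L : ℕ → List (Finset ℕ) := fun j => Nat.rec [] (fun j l => resp l (a (κ j)) :: l) j
  let F : ℕ → Finset ℕ := fun j => resp (L j) (a (κ j))
  have hL : ∀ j, L (j + 1) = F j :: L j := fun j => rfl
  have hLp : ∀ j, C (L j) ∈ p := by
    intro j
    induction j with
    | zero => exact hA0
    | succ j ih => rw [hL]; exact hnext _ _ ih (hresp _ _ ih).1
  have hFst : ∀ j, F j ∈ st (L j) := fun j => (hresp _ _ (hLp j)).1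
  have hLS : ∀ j, L j ∈ S (κ j) := by
    intro j
    induction j with
    | zero => exact hS (Nat.zero_le _) (Finset.mem_singleton_self _)
    | succ j ih => exact hS (hκ (Nat.lt_succ_self j)) (hSn _ _ ih)
  have hanti : Antitone fun j => C (L j) := antitone_nat_of_succ_le fun j => by
    rw [hL]; exact inter_subset_left
  have hsum : ∀ H : Finset ℕ, H.Nonempty → ∀ n, (∀ j ∈ H, n ≤ j) → H.biUnion F ∈ C (L n) := by
    intro H
    induction H using Finset.induction_on_min with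
    | empty => intro h; exact absurd h (by simp)
    | insert j s hs ih =>
      intro _ n hn
      refine hanti (hn j (Finset.mem_insert_self _ _)) ?_
      rw [Finset.biUnion_insert]
      rcases s.eq_empty_or_nonempty with rfl | hne
      · simpa using (hFst j).1
      · have := ih hne (j + 1) fun i hi => hs i hi
        rw [hL] at this
        exact this.2.1
  have hbd : Monotone fun j => bd (L j) := monotone_nat_of_le_succ fun j => by
    rw [hL]; exact le_max_left _ _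
  have hlt : ∀ i, ∀ x ∈ F i, x < bd (L (i + 1)) := by
    intro i x hx
    rw [hL]
    exact lt_of_lt_of_le (Nat.lt_succ_of_le (Finset.le_sup (f := id) hx)) (le_max_right _ _)
  refine ⟨F, ?_, fun H hH => hsum H hH 0 (fun _ _ => Nat.zero_le _), ?_, ?_⟩
  · intro i j hij x hx y hy
    have h2 : F j ∈ C (L (i + 1)) := hanti hij (hFst j).1
    have h3 := hlt i x hx
    rw [hL] at h2 h3
    exact lt_of_lt_of_le h3 (h2.2.2.2 y hy)
  · rintro H₁ H₂ ⟨h1, h2, h12⟩
    let m := H₁.max' h1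
    have h3 := hsum H₂ h2 (m + 1) fun j hj => h12 m (H₁.max'_mem h1) j hj
    rw [hL] at h3
    refine h3.2.2.1 _ (Finset.mem_powerset.2 ?_)
    intro x hx
    obtain ⟨i, hi, hxi⟩ := Finset.mem_biUnion.1 hx
    rw [← hL]
    exact Finset.mem_range.2 (lt_of_lt_of_le (hlt i x hxi)
      (hbd (Nat.succ_le_succ (H₁.le_max' i hi))))
  · refine ⟨κ 0, fun k hk hkK n hn1 hn2 => ?_⟩
    have hex : ∃ j, k < κ (j + 1) := ⟨k, lt_of_lt_of_le (Nat.lt_succ_self k) (hκ.id_le (k + 1))⟩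
    let j := Nat.find hex
    have hj1 : k < κ (j + 1) := Nat.find_spec hex
    have hj2 : κ j ≤ k := by
      rcases Nat.eq_zero_or_pos j with h0 | h0
      · rw [h0]; exact hk
      · obtain ⟨t, ht⟩ : ∃ t, j = t + 1 := ⟨j - 1, by omega⟩
        have := Nat.find_min hex (m := t) (by omega)
        rw [ht]; omega
    have hj3 : κ j < k := lt_of_le_of_ne hj2 fun h => hkK (h ▸ Nat.nth_mem_of_infinite hK j)
    refine ⟨j + 1, (hresp _ _ (hLp (j + 1))).2 (Finset.mem_Ico.2 ⟨?_, ?_⟩)⟩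
    · have h4 : α (L (j + 1)) ≤ a (κ j + 1) := hSα _ _ (hSn _ _ (hLS j))
      exact h4.trans ((ha.monotone hj3).trans hn1)
    · exact lt_of_lt_of_le hn2 (ha.monotone hj1)

/-- every point-infinite sequence of open sets stays point-infinite after deleting some
infinite set of indices -/
def Del (X : Type u) [TopologicalSpace X] : Prop :=
  ∀ V : ℕ → Set X, (∀ n, IsOpen (V n)) → (∀ x, {n | x ∈ V n}.Infinite) →
    ∃ K : Set ℕ, K.Infinite ∧ ∀ x, {k | k ∉ K ∧ x ∈ V k}.Infinite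

theorem star_of_del {X : Type u} [TopologicalSpace X] (hD : Del X)
    (hc : ∀ 𝒰 : Set (Set X), IsLarge 𝒰 → ∃ 𝒱 ⊆ 𝒰, 𝒱.Countable ∧
      ∀ x : X, {U | U ∈ 𝒱 ∧ x ∈ U}.Infinite) : SumStar X := by
  classical
  intro 𝒰 hU hnf k χ
  have hX : Nonempty X := by
    by_contra h
    rw [not_nonempty_iff] at h
    exact hnf ∅ (empty_subset _) finite_empty (Subsingleton.elim _ _)
  obtain ⟨x0⟩ := hX
  obtain ⟨𝒱, hVU, hVc, hVl⟩ := hc 𝒰 hU
  have hinf : 𝒱.Infinite := (hVl x0).mono fun U hU => hU.1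
  obtain ⟨W, hWinj, hWr⟩ : ∃ W : ℕ → Set X, Function.Injective W ∧ Set.range W = 𝒱 := by
    have : Infinite 𝒱 := hinf.to_subtype
    have : Countable 𝒱 := hVc.to_subtype
    obtain ⟨e⟩ := nonempty_equiv_of_countable (α := ℕ) (β := 𝒱)
    refine ⟨fun n => (e n : Set X), fun n m h => e.injective (Subtype.ext h), ?_⟩
    ext V
    constructor
    · rintro ⟨n, rfl⟩
      exact (e n).2
    · intro hV
      exact ⟨e.symm ⟨V, hV⟩, by simp⟩
  have hWU : ∀ n, W n ∈ 𝒰 := fun n => hVU (hWr ▸ ⟨n, rfl⟩)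
  have hWinf : ∀ x, {n | x ∈ W n}.Infinite := by
    intro x
    refine Set.Infinite.of_image W ((hVl x).mono ?_)
    rintro V ⟨hV, hx⟩
    obtain ⟨n, rfl⟩ : V ∈ Set.range W := hWr ▸ hV
    exact ⟨n, hx, rfl⟩
  let π : Finset ℕ → Set X := fun F => ⋃ i ∈ F, W i
  have hπ : ∀ E, π E ≠ Set.univ := by
    intro E h
    refine hnf (W '' E) ?_ (E.finite_toSet.image W) ?_
    · rintro _ ⟨n, _, rfl⟩
      exact hWU n
    · rw [sUnion_image]
      exact h
  obtain ⟨p, hp, hid⟩ := exists_idem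
  have hne : ∀ E, {G | π G ≠ π E} ∈ p := by
    intro E
    by_contra h
    have h2 := Ultrafilter.compl_mem_iff_notMem.2 h
    obtain ⟨a, ha⟩ := hp _ h2 0
    apply hπ E
    rw [eq_univ_iff_forall]
    intro x
    obtain ⟨n, hn, han⟩ := (hWinf x).exists_gt a
    obtain ⟨G, hG, _, hG3⟩ := ha (n + 1)
    have hG' : π G = π E := by simpa using hG
    rw [← hG']
    exact mem_iUnion₂.2 ⟨n, hG3 (Finset.mem_Ico.2 ⟨han.le, Nat.lt_succ_self n⟩), hn⟩
  choose col hcol using fun E => exists_color p (fun G => χ s(π E, π G))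
  obtain ⟨c, hc0⟩ := exists_color p col
  obtain ⟨a, ha, hcore⟩ := core hp hid ({F | col F = c} ∩ {G | π G ≠ π ∅}) (inter_mem hc0 (hne ∅))
    (fun E => {G | χ s(π E, π G) = col E} ∩ {G | π G ≠ π E}) (fun E => inter_mem (hcol E) (hne E))
  let V : ℕ → Set X := fun k => ⋃ n ∈ Finset.Ico (a k) (a (k + 1)), W n
  have hVmem : ∀ k x, x ∈ V k ↔ ∃ n, a k ≤ n ∧ n < a (k + 1) ∧ x ∈ W n := by
    intro k x
    simp [V, and_assoc]
  obtain ⟨K, hK, hKV⟩ := hD V (fun k => isOpen_biUnion fun n _ => (hU.1 _ (hWU n)).1) (by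
    intro x
    rw [Set.infinite_iff_exists_gt]
    intro N
    obtain ⟨n, hn, hn'⟩ := (hWinf x).exists_gt (a (N + 1))
    have hex : ∃ i, n < a (i + 1) := ⟨n, lt_of_lt_of_le (Nat.lt_succ_self n) (ha.id_le (n + 1))⟩
    have h1 : n < a (Nat.find hex + 1) := Nat.find_spec hex
    have h2 : N < Nat.find hex := by
      by_contra hcon
      have : a (Nat.find hex + 1) ≤ a (N + 1) := ha.monotone (by omega)
      omega
    obtain ⟨t, ht⟩ : ∃ t, Nat.find hex = t + 1 := ⟨Nat.find hex - 1, by omega⟩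
    have h3 := Nat.find_min hex (m := t) (by omega)
    refine ⟨Nat.find hex, (hVmem _ x).2 ⟨n, ?_, h1, hn⟩, h2⟩
    rw [ht]; omega)
  obtain ⟨F, hFlt, hFA, hFB, N, hN⟩ := hcore K hK
  have hsum : ∀ H : Finset ℕ, sumSet (fun n => W '' (F n : Set ℕ)) H = π (H.biUnion F) := by
    intro H
    ext x
    simp only [sumSet, π, mem_iUnion, mem_sUnion, mem_image, Finset.mem_coe, Finset.mem_biUnion,
      exists_prop]
    constructor
    · rintro ⟨i, hi, _, ⟨n, hn, rfl⟩, hx⟩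
      exact ⟨n, ⟨i, hi, hn⟩, hx⟩
    · rintro ⟨n, ⟨i, hi, hn⟩, hx⟩
      exact ⟨i, hi, _, ⟨n, hn, rfl⟩, hx⟩
  refine ⟨fun n => W '' (F n : Set ℕ), fun n => ⟨?_, (F n).finite_toSet.image W, ?_⟩, ?_, ⟨?_, ?_⟩,
    ?_, c, ?_⟩
  · rintro _ ⟨i, _, rfl⟩
    exact hWU i
  · have h1 := (hFA {n} (Finset.singleton_nonempty n)).2
    rw [Finset.singleton_biUnion] at h1
    rcases (F n).eq_empty_or_nonempty with h | ⟨i, hi⟩
    · rw [h] at h1
      exact absurd rfl h1
    · exact ⟨W i, i, hi, rfl⟩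
  · intro n m hnm
    rw [Set.disjoint_left]
    rintro _ ⟨i, hi, rfl⟩ ⟨j, hj, hij⟩
    have := hWinj hij
    subst this
    rcases lt_or_gt_of_ne hnm with h | h
    · exact lt_irrefl _ (hFlt n m h j hi j hj)
    · exact lt_irrefl _ (hFlt m n h j hj j hi)
  · intro U hUm
    obtain ⟨n, i, _, rfl⟩ := mem_iUnion.1 hUm
    exact hU.1 _ (hWU i)
  · intro x
    have h1 : {n | x ∈ W n ∧ ∃ j, n ∈ F j}.Infinite := by
      rw [Set.infinite_iff_exists_gt]
      intro M
      obtain ⟨k, ⟨hk1, hk2⟩, hk3⟩ := (hKV x).exists_gt (N + M)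
      obtain ⟨n, hn1, hn2, hn3⟩ := (hVmem k x).1 hk2
      refine ⟨n, ⟨hn3, hN k (by omega) hk1 n hn1 hn2⟩, ?_⟩
      have := ha.id_le k
      simp only [id] at this
      omega
    refine (h1.image hWinj.injOn).mono ?_
    rintro _ ⟨n, ⟨hx, j, hj⟩, rfl⟩
    exact ⟨mem_iUnion.2 ⟨j, n, hj, rfl⟩, hx⟩
  · intro H₁ H₂ hH
    rw [hsum, hsum]
    exact ((hFB H₁ H₂ hH).2).symm
  · intro H₁ H₂ hH
    rw [hsum, hsum]
    exact ((hFB H₁ H₂ hH).1).trans (hFA H₁ hH.1).1

end Pool.Agent.H501Z.Sum
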