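import Pool.Agent.H501Z.Sum.Conv
import Pool.Agent.H501Z.Sum.Ultra
import Pool.Agent.Results.MP_ef395a_gt.ForcedIndependence

set_option autoImplicit false

namespace Pool.Agent.H501Z.Sum

open Set Filter Cardinal

universe u

theorem inter_nonempty_of_lt_g {ι : Type} (hι : #ι < gNum) (G : ι → Set (Set ℕ))
    (hG : ∀ i, GroupwiseDense (G i)) : ∃ B, ∀ i, B ∈ G i := by
  by_contra hcon
  push Not at hcon
  have h1 : gNum ≤ #(range G) := by
    apply csInf_le'
    refine ⟨range G, ?_, ?_, rfl⟩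
    · rintro _ ⟨i, rfl⟩
      exact hG i
    · rw [eq_empty_iff_forall_notMem]
      intro B hB
      obtain ⟨i, hi⟩ := hcon B
      exact hi (hB _ ⟨i, rfl⟩)
  exact absurd (lt_of_le_of_lt (h1.trans mk_range_le) hι) (lt_irrefl _)

theorem blocks_infinite {a : ℕ → ℕ} (ha : StrictMono a) {C : Set ℕ} (hC : C.Infinite) :
    (⋃ i ∈ C, Set.Ico (a i) (a (i + 1))).Infinite := by
  refine (hC.image ha.injective.injOn).mono ?_
  rintro _ ⟨i, hi, rfl⟩
  exact mem_biUnion hi ⟨le_rfl, ha (Nat.lt_succ_self i)⟩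

theorem not_dom_of_lt_g {ι : Type} [Nonempty ι] (hι : #ι < gNum) (Φ : ι → ℕ → ℕ) :
    ∃ h : ℕ → ℕ, ∀ i, ∃ m, Φ i m ≤ h m := by
  obtain ⟨B, hB⟩ := inter_nonempty_of_lt_g hι
    (fun i => {B | B.Infinite ∧ ∀ N, ∃ n, N ≤ n ∧ ∀ k ∈ B, n ≤ k → Φ i n ≤ k}) (by
      intro i
      refine ⟨fun A hA => hA.1, ?_, ?_⟩
      · rintro A ⟨_, hA⟩ B hB hfin
        refine ⟨hB, fun N => ?_⟩
        obtain ⟨N', hN'⟩ := hfin.bddAbove
        obtain ⟨n, hn1, hn2⟩ := hA (N + N' + 1)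
        refine ⟨n, by omega, fun k hk hnk => hn2 k ?_ hnk⟩
        by_contra h
        have := hN' ⟨hk, h⟩
        omega
      · intro a _ ha
        let c : ℕ → ℕ := fun j => Nat.rec 0 (fun _ r => max (r + 1) (Φ i (a (r + 1)))) j
        have hc : ∀ j, c (j + 1) = max (c j + 1) (Φ i (a (c j + 1))) := fun j => rfl
        have hcm : StrictMono c := strictMono_nat_of_lt_succ fun j => by
          rw [hc]; omega
        have hC : (range c).Infinite := Set.infinite_range_of_injective hcm.injective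
        refine ⟨range c, hC, blocks_infinite ha hC, fun N => ⟨a (c N + 1), ?_, ?_⟩⟩
        · have h1 : c N + 1 ≤ a (c N + 1) := ha.id_le _
          have h2 : N ≤ c N := hcm.id_le _
          omega
        · intro k hk hnk
          obtain ⟨_, ⟨l, rfl⟩, hk1, hk2⟩ := mem_iUnion₂.1 hk
          have hl : N < l := by
            by_contra hcon
            have : a (c l + 1) ≤ a (c N + 1) :=
              ha.monotone (Nat.succ_le_succ (hcm.monotone (not_lt.1 hcon)))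
            omega
          have h1 : c (N + 1) ≤ c l := hcm.monotone hl
          have h2 : c l ≤ a (c l) := ha.id_le _
          rw [hc] at h1
          omega)
  obtain ⟨i0⟩ := ‹Nonempty ι›
  have hBinf : B.Infinite := (hB i0).1
  choose h hh1 hh2 using fun n => hBinf.exists_gt n
  refine ⟨h, fun i => ?_⟩
  obtain ⟨n, _, hn⟩ := (hB i).2 0
  exact ⟨n, hn _ (hh1 n) (hh2 n).le⟩

theorem collapse {ι : Type} [Nonempty ι] (hι : #ι < gNum) (P : ι → Set ℕ)
    (hP : ∀ i, (P i).Infinite) (𝒮 : Set (Set ℕ))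
    (hS : ∀ a : ℕ → ℕ, StrictMono a → ∃ A ∈ 𝒮,
      {k | ∀ n ∈ A, ¬ (a k ≤ n ∧ n < a (k + 1))}.Infinite) :
    ∃ b : ℕ → ℕ, StrictMono b ∧ ∀ i, ∃ A ∈ 𝒮, ∃ N, ∀ k, N ≤ k → ∀ n ∈ A, b k ≤ n → n < b (k + 1) →
      ∃ n' ∈ P i, b k ≤ n' ∧ n' < b (k + 1) := by
  classical
  let G : ι → Set (Set ℕ) := fun i => {B | B.Infinite ∧ ∃ A ∈ 𝒮, ∃ N : ℕ, ∀ b ∈ B, ∀ b' ∈ B,
    N ≤ b → b < b' → ∀ n ∈ A, b ≤ n → n < b' → ∃ n' ∈ P i, b ≤ n' ∧ n' < b'}
  have hG : ∀ i, GroupwiseDense (G i) := by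
    intro i
    have hPinf : (P i).Infinite := hP i
    refine ⟨fun A hA => hA.1, ?_, ?_⟩
    · rintro A ⟨_, y, hy, N, hA⟩ B hB hfin
      refine ⟨hB, y, hy, ?_⟩
      obtain ⟨N', hN'⟩ := hfin.bddAbove
      refine ⟨max N (N' + 1), fun b hb b' hb' hN hbb' => ?_⟩
      have hbA : b ∈ A := by
        by_contra h
        have := hN' ⟨hb, h⟩
        omega
      have hbA' : b' ∈ A := by
        by_contra h
        have := hN' ⟨hb', h⟩
        omega
      exact hA b hbA b' hbA' (by omega) hbb'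
    · intro a _ ha
      have hnext : ∀ c : ℕ, ∃ c' : ℕ, c + 1 < c' ∧ ∃ n ∈ P i, a (c + 1) ≤ n ∧ n < a c' := by
        intro c
        obtain ⟨n, hn, hn'⟩ := hPinf.exists_gt (a (c + 1))
        refine ⟨max (c + 2) (n + 1), by omega, n, hn, hn'.le, ?_⟩
        exact lt_of_lt_of_le (Nat.lt_succ_self n)
          (le_trans (le_max_right _ _) (ha.id_le _))
      choose nx hnx1 hnx2 using hnext
      obtain ⟨c, hc⟩ : ∃ c : ℕ → ℕ, ∀ i, c (i + 1) = nx (c i) :=
        ⟨fun i => Nat.rec 0 (fun _ r => nx r) i, fun i => rfl⟩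
      have hcmono : StrictMono c := strictMono_nat_of_lt_succ (fun i => by
        rw [hc]
        have := hnx1 (c i)
        omega)
      obtain ⟨A, hA, hy⟩ := hS (fun k => a (c k)) (ha.comp hcmono)
      refine ⟨c '' {k | ∀ n ∈ A, ¬ (a (c k) ≤ n ∧ n < a (c (k + 1)))},
        hy.image hcmono.injective.injOn,
        blocks_infinite ha (hy.image hcmono.injective.injOn), A, hA, 0, ?_⟩
      intro b hb b' hb' _ hbb' n hyn hn1 hn2
      obtain ⟨_, ⟨k, hk, rfl⟩, hbk⟩ := mem_iUnion₂.1 hb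
      obtain ⟨_, ⟨k', hk', rfl⟩, hbk'⟩ := mem_iUnion₂.1 hb'
      have hlt : c k + 1 < c (k + 1) := by
        rw [hc]
        exact hnx1 _
      rcases lt_trichotomy k k' with h | h | h
      · obtain ⟨n', hn', h1, h2⟩ := hnx2 (c k)
        refine ⟨n', hn', ?_, ?_⟩
        · exact le_trans hbk.2.le h1
        · have h3 : a (nx (c k)) ≤ a (c k') := ha.monotone (by
            rw [← hc]
            exact hcmono.monotone h)
          exact lt_of_lt_of_le h2 (h3.trans hbk'.1)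
      · subst h
        exact absurd ⟨hbk.1.trans hn1,
          lt_of_lt_of_le (hn2.trans hbk'.2) (ha.monotone hlt.le)⟩ (hk n hyn)
      · exfalso
        have h3 : a (c k' + 1) ≤ a (c k) := ha.monotone (by
          have := hcmono.monotone (show k' + 1 ≤ k from h)
          have hlt' : c k' + 1 < c (k' + 1) := by
            rw [hc]
            exact hnx1 _
          omega)
        have h4 := hbk'.2
        have h5 := hbk.1
        omega
  obtain ⟨B, hB⟩ := inter_nonempty_of_lt_g hι G hG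
  obtain ⟨i0⟩ := ‹Nonempty ι›
  have hBinf : B.Infinite := (hB i0).1
  have hb : StrictMono (Nat.nth (· ∈ B)) := Nat.nth_strictMono hBinf
  refine ⟨Nat.nth (· ∈ B), hb, fun i => ?_⟩
  obtain ⟨_, A, hA, N, hN⟩ := hB i
  refine ⟨A, hA, N, fun k hk n hn h1 h2 => ?_⟩
  exact hN _ (Nat.nth_mem_of_infinite hBinf k) _ (Nat.nth_mem_of_infinite hBinf (k + 1))
    (hk.trans (hb.id_le k)) (hb (Nat.lt_succ_self k)) n hn h1 h2

theorem block_unique {b : ℕ → ℕ} (hb : StrictMono b) {i j n : ℕ} (h1 : b i ≤ n) (h2 : n < b (i + 1))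
    (h3 : b j ≤ n) (h4 : n < b (j + 1)) : i = j := by
  by_contra hne
  rcases lt_or_gt_of_ne hne with h | h
  · have := hb.monotone (show i + 1 ≤ j from h)
    omega
  · have := hb.monotone (show j + 1 ≤ i from h)
    omega

theorem block_exists {b : ℕ → ℕ} (hb : StrictMono b) (N n : ℕ) (hn : b N ≤ n) :
    ∃ k, N ≤ k ∧ b k ≤ n ∧ n < b (k + 1) := by
  induction n, hn using Nat.le_induction with
  | base => exact ⟨N, le_rfl, le_rfl, hb (Nat.lt_succ_self N)⟩
  | succ n _ ih =>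
    obtain ⟨k, h1, h2, h3⟩ := ih
    by_cases h : n + 1 < b (k + 1)
    · exact ⟨k, h1, by omega, h⟩
    · refine ⟨k + 1, by omega, by omega, ?_⟩
      have := hb (Nat.lt_succ_self (k + 1))
      simp only [Nat.succ_eq_add_one] at this
      omega

theorem uNum_spec : ∃ B : Set (Set ℕ),
    (∃ p : Ultrafilter ℕ, (∀ A ∈ p, A.Infinite) ∧ ∀ A : Set ℕ, A ∈ p ↔ ∃ b ∈ B, b ⊆ A) ∧
      #B = uNum := Pool.Agent.Helper161.Dlr.Base.exists_isUltrafilterBase_card

theorem menger_of_star (hug : uNum < gNum) (X : Type u) [TopologicalSpace X] [RegularSpace X]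
    [T1Space X] [Infinite X] (hS : SumStar X) : IsMenger X := by
  classical
  by_contra hM
  have := lindelof_of_star hS
  obtain ⟨W, hinj, hL, hnf, hsp⟩ := sparse_cover hM
  obtain ⟨𝓑, ⟨p, hp1, hp2⟩, hcard⟩ := uNum_spec
  have hι : #𝓑 < gNum := hcard ▸ hug
  have h𝓑p : ∀ P : 𝓑, P.1 ∈ p := fun P => (hp2 P).2 ⟨P, P.2, Subset.rfl⟩
  have : Nonempty 𝓑 := by
    obtain ⟨P0, hP0, -⟩ := (hp2 Set.univ).1 Filter.univ_mem
    exact ⟨⟨P0, hP0⟩⟩
  obtain ⟨b, hb, hcol⟩ := collapse hι (fun P : 𝓑 => P.1) (fun P => hp1 _ (h𝓑p P))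
    {A | ∀ x, {n | n ∈ A ∧ x ∈ W n}.Infinite} (fun a ha => by
      obtain ⟨A, hA1, hA2⟩ := gaps_of_star hS W hinj hL hnf a ha
      exact ⟨A, hA1, hA2⟩)
  have hT : ∀ x, ∃ P : 𝓑, ∀ n ∈ P.1, ∃ k, (b k ≤ n ∧ n < b (k + 1)) ∧
      ∃ n', b k ≤ n' ∧ n' < b (k + 1) ∧ x ∈ W n' := by
    intro x
    let T : Set ℕ := {n | ∃ k, (b k ≤ n ∧ n < b (k + 1)) ∧
      ∃ n', b k ≤ n' ∧ n' < b (k + 1) ∧ x ∈ W n'}
    rcases p.mem_or_compl_mem T with hT | hT
    · obtain ⟨P, hP, hPT⟩ := (hp2 T).1 hT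
      exact ⟨⟨P, hP⟩, fun n hn => hPT hn⟩
    · exfalso
      obtain ⟨P, hP, hPT⟩ := (hp2 Tᶜ).1 hT
      obtain ⟨A, hA, N, hN⟩ := hcol ⟨P, hP⟩
      obtain ⟨n, ⟨hn1, hn2⟩, hn3⟩ := (hA x).exists_gt (b N)
      obtain ⟨k, hk1, hk2, hk3⟩ := block_exists hb N n hn3.le
      obtain ⟨n', hn', h1, h2⟩ := hN k hk1 n hn1 hk2 hk3
      exact hPT hn' ⟨k, ⟨h1, h2⟩, n, hk2, hk3, hn2⟩
  have hΦ : ∀ (P : 𝓑) (m : ℕ), ∃ s : Finset ℕ, s.card = 2 * m + 1 ∧
      ∀ k ∈ s, ∃ n ∈ P.1, b k ≤ n ∧ n < b (k + 1) := by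
    intro P m
    have hinf : {k | ∃ n ∈ P.1, b k ≤ n ∧ n < b (k + 1)}.Infinite := by
      rw [Set.infinite_iff_exists_gt]
      intro N
      obtain ⟨n, hn, hn'⟩ := (hp1 _ (h𝓑p P)).exists_gt (b (N + 1))
      obtain ⟨k, hk1, hk2, hk3⟩ := block_exists hb (N + 1) n hn'.le
      exact ⟨k, ⟨n, hn, hk2, hk3⟩, hk1⟩
    obtain ⟨s, hs1, hs2⟩ := hinf.exists_subset_card_eq (2 * m + 1)
    exact ⟨s, hs2, fun k hk => hs1 hk⟩
  choose s hs1 hs2 using hΦ
  obtain ⟨h, hh⟩ := not_dom_of_lt_g hι (fun P m => b ((s P m).sup id + 1))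
  obtain ⟨x, hx⟩ := hsp h
  obtain ⟨P, hP⟩ := hT x
  obtain ⟨m, hm⟩ := hh P
  have h1 : ∀ k, ∃ n', k ∈ s P m → b k ≤ n' ∧ n' < b (k + 1) ∧ x ∈ W n' := by
    intro k
    by_cases hk : k ∈ s P m
    · obtain ⟨n, hn, h1, h2⟩ := hs2 P m k hk
      obtain ⟨k', ⟨h3, h4⟩, n', h5⟩ := hP n hn
      have := block_unique hb h1 h2 h3 h4
      subst this
      exact ⟨n', fun _ => h5⟩
    · exact ⟨0, fun h => absurd h hk⟩
  choose ν hν using h1
  have h2 := hx m ((s P m).image ν) (by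
    intro n hn
    obtain ⟨k, hk, rfl⟩ := Finset.mem_image.1 hn
    refine ⟨?_, (hν k hk).2.2⟩
    have h3 : k + 1 ≤ (s P m).sup id + 1 := Nat.succ_le_succ (Finset.le_sup (f := id) hk)
    exact lt_of_lt_of_le (hν k hk).2.1 ((hb.monotone h3).trans hm))
  rw [Finset.card_image_of_injOn (by
    intro k hk k' hk' hkk
    have h3 := hν k hk
    have h4 := hν k' hk'
    rw [← hkk] at h4
    exact block_unique hb h3.1 h3.2.1 h4.1 h4.2.1), hs1] at h2
  omega

theorem countable_large {X : Type u} [TopologicalSpace X] [SecondCountableTopology X]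
    (𝒰 : Set (Set X)) (hU : IsLarge 𝒰) : ∃ 𝒱 ⊆ 𝒰, 𝒱.Countable ∧
      ∀ x : X, {U | U ∈ 𝒱 ∧ x ∈ U}.Infinite := by
  obtain ⟨𝒱, h1, h2, h3⟩ := Pool.Agent.Helper161.Dlr.Base.exists_countable_large (𝒰 := 𝒰)
    ⟨fun U h => (hU.1 U h).1, fun h => (hU.1 _ h).2.2 rfl, hU.2⟩
  exact ⟨𝒱, h1, h2, h3.2.2⟩

theorem del_of_card_lt {X : Type} [TopologicalSpace X] (hX : #X < continuum) : Del X := by
  classical
  intro V _ hV
  let br : (ℕ → Bool) → ℕ → ℕ := fun z n => Encodable.encode (List.ofFn fun i : Fin n => z i)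
  have hbr : ∀ z z' n n', br z n = br z' n' → n = n' ∧ ∀ i < n, z i = z' i := by
    intro z z' n n' h
    have h1 := Encodable.encode_injective h
    have h2 : n = n' := by simpa using congrArg List.length h1
    subst h2
    refine ⟨rfl, fun i hi => ?_⟩
    exact congrFun (List.ofFn_injective h1) ⟨i, hi⟩
  have hinf : ∀ z, (range (br z)).Infinite := fun z =>
    Set.infinite_range_of_injective fun n n' h => (hbr z z n n' h).1
  by_contra hcon
  push Not at hcon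
  choose x hx using fun z => hcon _ (hinf z)
  have hinj : Function.Injective x := by
    intro z z' hzz
    by_contra hne
    obtain ⟨i, hi⟩ := Function.ne_iff.1 hne
    apply hV (x z)
    have h1 := hx z
    have h2 := hx z'
    rw [← hzz] at h2
    refine ((h1.union h2).union ((Set.finite_le_nat i).image (br z))).subset ?_
    intro k hk
    by_cases hk1 : k ∈ range (br z)
    · by_cases hk2 : k ∈ range (br z')
      · obtain ⟨n, rfl⟩ := hk1
        obtain ⟨n', hn'⟩ := hk2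
        refine Or.inr ⟨n, ?_, rfl⟩
        by_contra hlt
        exact hi ((hbr z z' n n' hn'.symm).2 i (not_le.1 hlt))
      · exact Or.inl (Or.inr ⟨hk2, hk⟩)
    · exact Or.inl (Or.inl ⟨hk1, hk⟩)
  have h1 : #(ℕ → Bool) ≤ #X := mk_le_of_injective hinj
  have h2 : #(ℕ → Bool) = continuum := by simp
  exact absurd (lt_of_le_of_lt (h2 ▸ h1) hX) (lt_irrefl _)

theorem infinite_of_not_menger {X : Type u} [TopologicalSpace X] (h : ¬ IsMenger X) :
    Infinite X := by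
  by_contra hfin
  rw [not_infinite_iff_finite] at hfin
  apply h
  intro 𝒰 hU
  refine ⟨𝒰, fun n => ⟨Subset.rfl, Set.toFinite _⟩, ?_⟩
  apply eq_univ_of_univ_subset
  rw [← (hU 0).2]
  exact subset_iUnion (fun n => ⋃₀ 𝒰 n) 0

theorem counterexample (h : continuum.{0} = aleph 1 ∨ dNum < continuum) :
    ∃ Y : Set (ℕ → ℕ), Y.Infinite ∧ SumStar Y ∧ ¬ IsMenger Y := by
  have key : ∃ Y : Set (ℕ → ℕ), Del Y ∧ ¬ IsMenger Y := by
    rcases h with h | h
    · obtain ⟨Y, hY, hM, _⟩ :=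
        Pool.Agent.Results.MP_ef395a_gt.ForcedIndependence.exists_of_ch h.symm
      refine ⟨Y, fun V hV hinf => ?_, hM⟩
      obtain ⟨B, hB⟩ := Pool.Agent.Helper161.Dlr.Base.exists_indexed_split hY V hV hinf
      have : Infinite Y := infinite_of_not_menger hM
      obtain ⟨y⟩ : Nonempty Y := inferInstance
      exact ⟨B, (hB y).1.mono fun i hi => hi.1, fun x => (hB x).2⟩
    · obtain ⟨D, hD, hcard⟩ := Pool.Agent.Helper161.Dlr.Base.exists_isDominating_card
      have hcard' : #D = dNum := hcard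
      let φ : (D × ℕ) → (ℕ → ℕ) := fun p n => max (p.1.1 n) p.2 + 1
      have hYdom : ∀ g : ℕ → ℕ, ∃ f ∈ Set.range φ, ∀ n, g n < f n := by
        intro g
        obtain ⟨f, hf, hfg⟩ := hD g
        obtain ⟨N, hN⟩ := Filter.eventually_atTop.1 hfg
        refine ⟨_, ⟨(⟨f, hf⟩, (Finset.range N).sup g), rfl⟩, fun n => ?_⟩
        show g n < max (f n) ((Finset.range N).sup g) + 1
        rcases lt_or_ge n N with h | h
        · have : g n ≤ (Finset.range N).sup g := Finset.le_sup (Finset.mem_range.2 h)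
          omega
        · have := hN n h
          omega
      have hYcard : #(Set.range φ) < continuum := by
        calc #(Set.range φ) ≤ #(D × ℕ) := Cardinal.mk_range_le
          _ = #D * aleph0 := by simp
          _ ≤ max (max #D aleph0) aleph0 := Cardinal.mul_le_max _ _
          _ < continuum := by
            rw [hcard']
            exact max_lt (max_lt h aleph0_lt_continuum) aleph0_lt_continuum
      exact ⟨Set.range φ, del_of_card_lt hYcard,
        Pool.Agent.Helper161.Dlr.Base.not_menger_of_dominating hYdom⟩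
  obtain ⟨Y, hD, hM⟩ := key
  exact ⟨Y, Set.infinite_coe_iff.1 (infinite_of_not_menger hM),
    star_of_del hD countable_large, hM⟩

end Pool.Agent.H501Z.Sum
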